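import Mathlib

set_option autoImplicit false

open Filter Topology

namespace Pool.Agent.Results.MP_60e8bf_an.IrregularOrbits

/-- the visiting times `N_T(x, U)` -/
def visits {X : Type*} (T : X → X) (x : X) (U : Set X) : Set ℕ := {n | T^[n] x ∈ U}

open Classical in
/-- the proportion `#(A ∩ [0,N]) / (N+1)` -/
noncomputable def ratio (A : Set ℕ) (N : ℕ) : ℝ :=
  ((Finset.range (N + 1)).filter (fun n => n ∈ A)).card / ((N : ℝ) + 1)

/-- lower density -/
noncomputable def lowerDensity (A : Set ℕ) : ℝ := liminf (ratio A) atTop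

/-- upper density -/
noncomputable def upperDensity (A : Set ℕ) : ℝ := limsup (ratio A) atTop

/-- frequently hypercyclic vectors -/
def IsFrequentlyHypercyclic {X : Type*} [TopologicalSpace X] (T : X → X) (x : X) : Prop :=
  ∀ U : Set X, IsOpen U → U.Nonempty → 0 < lowerDensity (visits T x U)

/-- the orbit of `x` is irregularly visiting -/
def IrregularlyVisiting {X : Type*} [TopologicalSpace X] (T : X → X) (x : X) : Prop :=
  ∃ U : Set X, IsOpen U ∧ U.Nonempty ∧
    lowerDensity (visits T x U) < upperDensity (visits T x U)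

theorem ratio_nonneg (A : Set ℕ) (N : ℕ) : 0 ≤ ratio A N := by
  unfold ratio; positivity

theorem ratio_le_one (A : Set ℕ) (N : ℕ) : ratio A N ≤ 1 := by
  classical
  unfold ratio
  rw [div_le_one (by positivity)]
  have := Finset.card_filter_le (Finset.range (N + 1)) (fun n => n ∈ A)
  rw [Finset.card_range] at this
  exact_mod_cast this

/-- the block set with no density -/
def blocks : Set ℕ := {n | 1 ≤ n ∧ Even (Nat.log 4 n)}

open Classical in
theorem blocks_big (k : ℕ) : (3 / 4 : ℝ) * 4 ^ (2 * k + 1) ≤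
    ((Finset.range (4 ^ (2 * k + 1))).filter (fun n => n ∈ blocks)).card := by
  have h : Finset.Ico (4 ^ (2 * k)) (4 ^ (2 * k + 1)) ⊆
      (Finset.range (4 ^ (2 * k + 1))).filter (fun n => n ∈ blocks) := by
    intro n hn
    rw [Finset.mem_Ico] at hn
    rw [Finset.mem_filter, Finset.mem_range]
    have h1 : 1 ≤ 4 ^ (2 * k) := Nat.one_le_pow _ _ (by norm_num)
    have h2 : Nat.log 4 n = 2 * k :=
      (Nat.log_eq_iff (Or.inr ⟨by norm_num, by omega⟩)).2 hn
    exact ⟨hn.2, by omega, by rw [h2]; exact even_two_mul k⟩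
  have h1 := Finset.card_le_card h
  rw [Nat.card_Ico] at h1
  have h2 : ((4 ^ (2 * k + 1) - 4 ^ (2 * k) : ℕ) : ℝ) = (3 / 4 : ℝ) * 4 ^ (2 * k + 1) := by
    rw [Nat.cast_sub (Nat.pow_le_pow_right (by norm_num) (by omega))]
    push_cast
    ring
  rw [← h2]
  exact_mod_cast h1

open Classical in
theorem blocks_small (k : ℕ) :
    (((Finset.range (4 ^ (2 * k + 2))).filter (fun n => n ∈ blocks)).card : ℝ) ≤
      (1 / 4 : ℝ) * 4 ^ (2 * k + 2) := by
  have h : (Finset.range (4 ^ (2 * k + 2))).filter (fun n => n ∈ blocks) ⊆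
      Finset.range (4 ^ (2 * k + 1)) := by
    intro n hn
    rw [Finset.mem_filter, Finset.mem_range] at hn
    rw [Finset.mem_range]
    obtain ⟨h1, h2, h3⟩ := hn
    by_contra hcon
    push Not at hcon
    have h4 : Nat.log 4 n = 2 * k + 1 :=
      (Nat.log_eq_iff (Or.inr ⟨by norm_num, by omega⟩)).2 ⟨hcon, h1⟩
    rw [h4] at h3
    exact (Nat.not_even_iff_odd.2 (odd_two_mul_add_one k)) h3
  have h1 := Finset.card_le_card h
  rw [Finset.card_range] at h1
  have h2 : ((4 ^ (2 * k + 1) : ℕ) : ℝ) = (1 / 4 : ℝ) * 4 ^ (2 * k + 2) := by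
    push_cast
    ring
  rw [← h2]
  exact_mod_cast h1

open Classical in
/-- small balls around orbit points are rarely visited -/
theorem rare {X : Type*} [MetricSpace X] (T : X → X) (hT : Continuous T) (x : X)
    (hinj : Function.Injective fun n : ℕ => T^[n] x) (n K : ℕ) :
    ∃ r : ℝ, 0 < r ∧ ∀ N : ℕ, ((Finset.range (N + 1)).filter
      (fun m => m ≠ n ∧ T^[m] x ∈ Metric.ball (T^[n] x) r)).card * K ≤ N + 1 := by
  -- the conditions on the neighbourhood
  have h1 : ∀ m : ℕ, m ≠ n → ∀ᶠ y in 𝓝 (T^[n] x), y ≠ T^[m] x := by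
    intro m hm
    exact isOpen_ne.mem_nhds fun h => hm (hinj h).symm
  have h2 : ∀ j : ℕ, 1 ≤ j → ∀ᶠ p in 𝓝 (T^[n] x) ×ˢ 𝓝 (T^[n] x), T^[j] p.1 ≠ p.2 := by
    intro j hj
    have hc : Continuous (T^[j]) := hT.iterate j
    rw [← nhds_prod_eq]
    have ho : IsOpen {p : X × X | T^[j] p.1 ≠ p.2} :=
      isOpen_ne_fun (hc.comp continuous_fst) continuous_snd
    refine ho.mem_nhds fun h => ?_
    have h' : T^[j] (T^[n] x) = T^[n] x := h
    rw [← Function.iterate_add_apply] at h'
    have := hinj h'
    omega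
  have h1' : ∀ᶠ y in 𝓝 (T^[n] x), ∀ m ∈ Finset.range K, m ≠ n → y ≠ T^[m] x := by
    rw [Filter.eventually_all_finset]
    intro m _
    by_cases hm : m = n
    · exact Filter.Eventually.of_forall fun y h => absurd hm h
    · exact (h1 m hm).mono fun y hy _ => hy
  have h2' : ∀ᶠ p in 𝓝 (T^[n] x) ×ˢ 𝓝 (T^[n] x), ∀ j ∈ Finset.range K, 1 ≤ j →
      T^[j] p.1 ≠ p.2 := by
    rw [Filter.eventually_all_finset]
    intro j _
    by_cases hj : 1 ≤ j
    · exact (h2 j hj).mono fun p hp _ => hp
    · exact Filter.Eventually.of_forall fun p h => absurd h hj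
  rw [← nhds_prod_eq, Metric.eventually_nhds_iff] at h2'
  rw [Metric.eventually_nhds_iff] at h1'
  obtain ⟨r1, hr1, h1'⟩ := h1'
  obtain ⟨r2, hr2, h2'⟩ := h2'
  refine ⟨min r1 r2, lt_min hr1 hr2, fun N => ?_⟩
  have hge : ∀ m, m ≠ n → T^[m] x ∈ Metric.ball (T^[n] x) (min r1 r2) → K ≤ m := by
    intro m hm hb
    by_contra hcon
    push Not at hcon
    have hb' : dist (T^[m] x) (T^[n] x) < r1 := lt_of_lt_of_le hb (min_le_left _ _)
    exact h1' hb' m (Finset.mem_range.2 hcon) hm rfl
  have hsep : ∀ m m', T^[m] x ∈ Metric.ball (T^[n] x) (min r1 r2) →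
      T^[m'] x ∈ Metric.ball (T^[n] x) (min r1 r2) → m < m' → K ≤ m' - m := by
    intro m m' hb hb' hlt
    by_contra hcon
    push Not at hcon
    have hp : dist ((T^[m] x, T^[m'] x) : X × X) (T^[n] x, T^[n] x) < r2 := by
      rw [Prod.dist_eq]
      exact max_lt (lt_of_lt_of_le hb (min_le_right _ _)) (lt_of_lt_of_le hb' (min_le_right _ _))
    refine h2' hp (m' - m) (Finset.mem_range.2 hcon) (by omega) ?_
    show T^[m' - m] (T^[m] x) = T^[m'] x
    rw [← Function.iterate_add_apply]
    congr 2
    omega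
  set V := (Finset.range (N + 1)).filter
      (fun m => m ≠ n ∧ T^[m] x ∈ Metric.ball (T^[n] x) (min r1 r2)) with hV
  have hcard : (V ×ˢ Finset.range K).card ≤ (Finset.range (N + 1)).card := by
    refine Finset.card_le_card_of_injOn (fun p => p.1 - p.2) ?_ ?_
    · rintro ⟨m, j⟩ hp
      rw [Finset.mem_coe, Finset.mem_product, hV, Finset.mem_filter, Finset.mem_range] at hp
      rw [Finset.mem_coe, Finset.mem_range]
      show m - j < N + 1
      have := hp.1.1
      simp only at this
      omega
    · rintro ⟨m, j⟩ hp ⟨m', j'⟩ hp' h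
      rw [Finset.mem_coe, Finset.mem_product, hV, Finset.mem_filter, Finset.mem_range,
        Finset.mem_range] at hp hp'
      simp only at hp hp' h
      have g1 := hge m hp.1.2.1 hp.1.2.2
      have g2 := hge m' hp'.1.2.1 hp'.1.2.2
      have g3 : m = m' := by
        rcases lt_trichotomy m m' with hlt | heq | hlt
        · have := hsep m m' hp.1.2.2 hp'.1.2.2 hlt
          omega
        · exact heq
        · have := hsep m' m hp'.1.2.2 hp.1.2.2 hlt
          omega
      subst g3
      have : j = j' := by omega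
      rw [this]
  rw [Finset.card_product, Finset.card_range, Finset.card_range] at hcard
  exact hcard

/-- every injective orbit of a continuous map of a metric space is irregularly visiting -/
theorem irregular_of_injective {X : Type*} [MetricSpace X] (T : X → X) (hT : Continuous T) (x : X)
    (hinj : Function.Injective fun n : ℕ => T^[n] x) : IrregularlyVisiting T x := by
  classical
  choose r hr0 hr using fun n : ℕ => rare T hT x hinj n (2 ^ (n + 4))
  let V : Set X := ⋃ n ∈ blocks, Metric.ball (T^[n] x) (r n)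
  have hVo : IsOpen V := isOpen_biUnion fun n _ => Metric.isOpen_ball
  have hmemV : ∀ n ∈ blocks, T^[n] x ∈ V := fun n hn =>
    Set.mem_biUnion hn (Metric.mem_ball_self (hr0 n))
  have h1b : 1 ∈ blocks := ⟨le_refl 1, by simp⟩
  -- lower bound
  have hlow : ∀ N : ℕ, (Finset.range (N + 1)).filter (fun n => n ∈ blocks) ⊆
      (Finset.range (N + 1)).filter (fun n => n ∈ visits T x V) := by
    intro N n hn
    rw [Finset.mem_filter] at hn ⊢
    exact ⟨hn.1, hmemV n hn.2⟩
  -- upper bound
  have hup : ∀ N : ℕ, (((Finset.range (N + 1)).filter (fun n => n ∈ visits T x V)).card : ℝ) ≤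
      ((Finset.range (N + 1)).filter (fun n => n ∈ blocks)).card + ((N : ℝ) + 1) / 8 := by
    intro N
    have hsub : (Finset.range (N + 1)).filter (fun n => n ∈ visits T x V) ⊆
        (Finset.range (N + 1)).filter (fun n => n ∈ blocks) ∪
          (Finset.range (N + 1)).biUnion (fun n => (Finset.range (N + 1)).filter
            (fun m => m ≠ n ∧ T^[m] x ∈ Metric.ball (T^[n] x) (r n))) := by
      intro m hm
      rw [Finset.mem_filter] at hm
      obtain ⟨hm1, hm2⟩ := hm
      rw [Finset.mem_union, Finset.mem_filter, Finset.mem_biUnion]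
      have hm2' : T^[m] x ∈ ⋃ n ∈ blocks, Metric.ball (T^[n] x) (r n) := hm2
      rw [Set.mem_iUnion₂] at hm2'
      obtain ⟨n, hn, hmn⟩ := hm2'
      by_cases hmn' : m = n
      · left
        rw [hmn'] at hm1 ⊢
        exact ⟨hm1, hn⟩
      · right
        have hmem : m ∈ (Finset.range (N + 1)).filter
            (fun m => m ≠ n ∧ T^[m] x ∈ Metric.ball (T^[n] x) (r n)) :=
          Finset.mem_filter.2 ⟨hm1, hmn', hmn⟩
        have hpos := Finset.card_pos.2 ⟨m, hmem⟩
        have hbd := hr n N
        have h3 : 2 ^ (n + 4) ≤ N + 1 := by nlinarith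
        have h4 : n < 2 ^ n := Nat.lt_two_pow_self
        have h5 : 2 ^ (n + 4) = 16 * 2 ^ n := by ring
        exact ⟨n, Finset.mem_range.2 (by omega), hmem⟩
    have h1 := (Finset.card_le_card hsub).trans (Finset.card_union_le _ _)
    have h2 : (((Finset.range (N + 1)).biUnion (fun n => (Finset.range (N + 1)).filter
            (fun m => m ≠ n ∧ T^[m] x ∈ Metric.ball (T^[n] x) (r n)))).card : ℝ) ≤
        ((N : ℝ) + 1) / 8 := by
      have h3 := Finset.card_biUnion_le (s := Finset.range (N + 1))
        (t := fun n => (Finset.range (N + 1)).filter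
            (fun m => m ≠ n ∧ T^[m] x ∈ Metric.ball (T^[n] x) (r n)))
      have h4 : ∀ n ∈ Finset.range (N + 1), ((((Finset.range (N + 1)).filter
            (fun m => m ≠ n ∧ T^[m] x ∈ Metric.ball (T^[n] x) (r n))).card : ℕ) : ℝ) ≤
          ((N : ℝ) + 1) / 16 * (1 / 2 : ℝ) ^ n := by
        intro n _
        have h5 : (((((Finset.range (N + 1)).filter
            (fun m => m ≠ n ∧ T^[m] x ∈ Metric.ball (T^[n] x) (r n))).card) *
            2 ^ (n + 4) : ℕ) : ℝ) ≤ ((N + 1 : ℕ) : ℝ) := by exact_mod_cast hr n N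
        push_cast at h5
        rw [show ((N : ℝ) + 1) / 16 * (1 / 2 : ℝ) ^ n = ((N : ℝ) + 1) / 2 ^ (n + 4) by
          rw [pow_add, one_div, inv_pow]; field_simp; norm_num]
        rw [le_div_iff₀ (by positivity)]
        exact h5
      calc _ ≤ ((∑ n ∈ Finset.range (N + 1), ((Finset.range (N + 1)).filter
            (fun m => m ≠ n ∧ T^[m] x ∈ Metric.ball (T^[n] x) (r n))).card : ℕ) : ℝ) := by
              exact_mod_cast h3
        _ ≤ ∑ n ∈ Finset.range (N + 1), ((N : ℝ) + 1) / 16 * (1 / 2 : ℝ) ^ n := by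
              push_cast
              exact Finset.sum_le_sum h4
        _ = ((N : ℝ) + 1) / 16 * ∑ n ∈ Finset.range (N + 1), (1 / 2 : ℝ) ^ n := by
              rw [Finset.mul_sum]
        _ ≤ ((N : ℝ) + 1) / 16 * 2 :=
              mul_le_mul_of_nonneg_left (sum_geometric_two_le _) (by positivity)
        _ = _ := by ring
    have h1' : (((Finset.range (N + 1)).filter (fun n => n ∈ visits T x V)).card : ℝ) ≤
        (((Finset.range (N + 1)).filter (fun n => n ∈ blocks)).card : ℝ) +
          (((Finset.range (N + 1)).biUnion (fun n => (Finset.range (N + 1)).filter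
            (fun m => m ≠ n ∧ T^[m] x ∈ Metric.ball (T^[n] x) (r n)))).card : ℝ) := by
      exact_mod_cast h1
    linarith
  have hpow : ∀ k : ℕ, k ≤ 4 ^ k - 1 := by
    intro k
    have : k < 4 ^ k := Nat.lt_pow_self (by norm_num)
    omega
  have hN : ∀ k : ℕ, 4 ^ k - 1 + 1 = 4 ^ k := by
    intro k
    have : 0 < 4 ^ k := by positivity
    omega
  have hNr : ∀ k : ℕ, (((4 ^ k - 1 : ℕ) : ℝ) + 1) = 4 ^ k := by
    intro k
    have := hN k
    exact_mod_cast this
  refine ⟨V, hVo, ⟨_, hmemV 1 h1b⟩, ?_⟩
  have hL : lowerDensity (visits T x V) ≤ 3 / 8 := by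
    refine liminf_le_of_frequently_le ?_ ?_
    · rw [frequently_atTop]
      intro a
      refine ⟨4 ^ (2 * a + 2) - 1, ?_, ?_⟩
      · have := hpow (2 * a + 2); omega
      · unfold ratio
        rw [hNr, div_le_iff₀ (by positivity)]
        have h1 := hup (4 ^ (2 * a + 2) - 1)
        rw [hNr] at h1
        have h2 := blocks_small a
        rw [hN] at h1 ⊢
        linarith
    · exact isBoundedUnder_of ⟨0, fun N => ratio_nonneg _ N⟩
  have hU : 3 / 4 ≤ upperDensity (visits T x V) := by
    refine le_limsup_of_frequently_le ?_ ?_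
    · rw [frequently_atTop]
      intro a
      refine ⟨4 ^ (2 * a + 1) - 1, ?_, ?_⟩
      · have := hpow (2 * a + 1); omega
      · unfold ratio
        rw [hNr, le_div_iff₀ (by positivity)]
        have h1 := Finset.card_le_card (hlow (4 ^ (2 * a + 1) - 1))
        have h2 := blocks_big a
        rw [hN] at h1 ⊢
        have h1' : (((Finset.range (4 ^ (2 * a + 1))).filter (fun n => n ∈ blocks)).card : ℝ) ≤
          ((Finset.range (4 ^ (2 * a + 1))).filter (fun n => n ∈ visits T x V)).card := by
          exact_mod_cast h1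
        linarith
    · exact isBoundedUnder_of ⟨1, fun N => ratio_le_one _ N⟩
  linarith

/-- Let `T` be a bounded operator on a (nonzero) separable Banach space, real or complex. Then the
orbit of every frequently hypercyclic vector of `T` is irregularly visiting. -/
theorem result {𝕜 : Type*} [RCLike 𝕜] {X : Type*} [NormedAddCommGroup X] [NormedSpace 𝕜 X]
    [CompleteSpace X] [TopologicalSpace.SeparableSpace X] [Nontrivial X] (T : X →L[𝕜] X) (x : X)
    (hx : IsFrequentlyHypercyclic T x) : IrregularlyVisiting T x := by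
  classical
  refine irregular_of_injective T T.continuous x ?_
  -- the orbit is dense
  have hdense : Dense (Set.range fun n : ℕ => T^[n] x) := by
    rw [dense_iff_inter_open]
    intro U hU hne
    by_contra hcon
    have hempty : visits T x U = ∅ := by
      ext n
      constructor
      · intro hn
        exact hcon ⟨T^[n] x, hn, n, rfl⟩
      · exact fun h => absurd h (Set.notMem_empty n)
    have h0 := hx U hU hne
    rw [hempty] at h0
    have h1 : lowerDensity (∅ : Set ℕ) = 0 := by
      unfold lowerDensity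
      have : ratio (∅ : Set ℕ) = fun _ => 0 := by
        funext N
        unfold ratio
        simp
      rw [this]
      exact liminf_const 0
    rw [h1] at h0
    exact lt_irrefl 0 h0
  -- so it is infinite
  have hXinf : Infinite X := Module.Free.infinite 𝕜 X
  have hkey : ∀ i j : ℕ, i < j → T^[i] x ≠ T^[j] x := by
    intro i j hij heq
    have hfin : ∀ n : ℕ, ∃ m < j, T^[n] x = T^[m] x := by
      intro n
      induction n using Nat.strong_induction_on with
      | _ n ih =>
        by_cases hn : n < j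
        · exact ⟨n, hn, rfl⟩
        · push Not at hn
          obtain ⟨m, hm, he⟩ := ih (n - j + i) (by omega)
          refine ⟨m, hm, ?_⟩
          rw [← he, Function.iterate_add_apply, heq, ← Function.iterate_add_apply]
          congr 2
          omega
    have hsub : (Set.range fun n : ℕ => T^[n] x) ⊆ (fun m => T^[m] x) '' (Set.Iio j) := by
      rintro _ ⟨n, rfl⟩
      obtain ⟨m, hm, he⟩ := hfin n
      exact ⟨m, hm, he.symm⟩
    have hf : (Set.range fun n : ℕ => T^[n] x).Finite :=
      ((Set.finite_Iio j).image _).subset hsub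
    have huniv : (Set.range fun n : ℕ => T^[n] x) = Set.univ := by
      rw [← hf.isClosed.closure_eq]
      exact hdense.closure_eq
    rw [huniv] at hf
    exact Set.infinite_univ hf
  intro i j hij
  rcases lt_trichotomy i j with h | h | h
  · exact absurd hij (hkey i j h)
  · exact h
  · exact absurd hij.symm (hkey j i h)

end Pool.Agent.Results.MP_60e8bf_an.IrregularOrbits
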